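import Mathlib

/-!
# Integer versus cyclic-group flow reconfiguration

If `F(G, ℤ_k)` is connected then `F(G, k)` is connected, for all graphs when `k ≤ 5`, and for
larger `k` for all graphs whose cycles are short compared with `k`.

Proof. Two `k`-flows with the same residues modulo `k` are connected in `F(G, k)` by reversing
directed cycles (`reach_of_same_residue`). So it is enough to lift one step `f' = f + c ε` of
`F(G, ℤ_k)`, where `ε` is the unit flow along a cycle `S` and `1 ≤ c ≤ k / 2`. Adding `c ε` to a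
lift `g` of `f` works unless there is an edge `e₀` of `S` with `ε(e₀) g(e₀) > k - c`. Such an edge
is repaired by reversing a cycle, directed in the orientation given by `g`, through `e₀` which
avoids the edges with `-c < ε g < 0`. If there is no such directed cycle there is a set `X` of
vertices such that `e₀` enters `X` and every edge which leaves `X` (in the orientation given by
`g`) has `-c < ε g < 0`. The flow `g + (c - 1) ε` then has net outflow from `X` at most
`(c - 2) q - k`, where `q` is the number of edges of `S` leaving `X` along `ε`, a contradiction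
when `(c - 2) q < k`; in particular always when `c ≤ 2`.
-/

set_option autoImplicit false
set_option linter.unusedSectionVars false

open Finset

namespace Pool.Agent.Results.MP_3da9df_co.Lifting

/-- A loopless multigraph with vertex set `V` and edge set `E`, together with a fixed orientation
of its edges: the edge `e` is oriented from `src e` to `tgt e`. -/
structure OGraph (V E : Type) where
  /-- the tail of an edge -/
  src : E → V
  /-- the head of an edge -/
  tgt : E → V
  /-- there are no loops -/
  loopless : ∀ e, src e ≠ tgt e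

section Definitions

variable {V E : Type} [Fintype V] [DecidableEq V] [Fintype E] [DecidableEq E]

/-- `f` is an `A`-flow: at every vertex the sum over the arcs leaving it equals the sum over the
arcs entering it. -/
def OGraph.IsFlow (G : OGraph V E) {A : Type} [AddCommGroup A] (f : E → A) : Prop :=
  ∀ v, ∑ e with G.src e = v, f e = ∑ e with G.tgt e = v, f e

/-- the edge `e` joins the vertices `x` and `y` -/
def OGraph.Joins (G : OGraph V E) (e : E) (x y : V) : Prop :=
  (G.src e = x ∧ G.tgt e = y) ∨ (G.src e = y ∧ G.tgt e = x)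

/-- `S` is the edge set of a cycle (a connected 2-regular subgraph): there are `n ≥ 2` distinct
vertices `v 0, …, v (n - 1)` and `n` distinct edges `e 0, …, e (n - 1)`, the edges in `S`, such
that `e i` joins `v i` and `v (i + 1)`, where `v n = v 0`. -/
def OGraph.IsCycle (G : OGraph V E) (S : Finset E) : Prop :=
  ∃ (n : ℕ) (v : ℕ → V) (e : ℕ → E), 2 ≤ n ∧ v n = v 0 ∧
    (∀ i < n, ∀ j < n, v i = v j → i = j) ∧ (∀ i < n, ∀ j < n, e i = e j → i = j) ∧
    (∀ i < n, G.Joins (e i) (v i) (v (i + 1))) ∧ S = (range n).image e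

theorem OGraph.not_isCycle_empty (G : OGraph V E) : ¬ G.IsCycle (∅ : Finset E) := by
  rintro ⟨n, v, e, hn, -, -, -, -, hS⟩
  have : e 0 ∈ (range n).image e := mem_image_of_mem e (mem_range.2 (by omega))
  rw [← hS] at this
  simp at this

/-- The reconfiguration graph `F(G, A)` of the nowhere-zero `A`-flows: two flows are adjacent
when the support of their difference is the edge set of a cycle. -/
def OGraph.flowGraph (G : OGraph V E) (A : Type) [AddCommGroup A] [DecidableEq A] :
    SimpleGraph {f : E → A // G.IsFlow f ∧ ∀ e, f e ≠ 0} where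
  Adj f g := G.IsCycle (univ.filter fun e => f.1 e - g.1 e ≠ 0)
  symm := ⟨fun f g h => by
    have : (univ.filter fun e => g.1 e - f.1 e ≠ 0) = univ.filter fun e => f.1 e - g.1 e ≠ 0 := by
      ext e
      simp only [mem_filter, mem_univ, true_and, ne_eq, sub_eq_zero]
      exact not_congr eq_comm
    rw [this]
    exact h⟩
  loopless := ⟨fun f h => G.not_isCycle_empty (by simpa using h)⟩

/-- The reconfiguration graph `F(G, k)` of the nowhere-zero `k`-flows, i.e. of the `ℤ`-flows `f`
with `0 < |f e| < k` for all edges `e`. -/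
def OGraph.intFlowGraph (G : OGraph V E) (k : ℕ) :
    SimpleGraph {f : E → ℤ // G.IsFlow f ∧ ∀ e, f e ≠ 0 ∧ |f e| < k} where
  Adj f g := G.IsCycle (univ.filter fun e => f.1 e - g.1 e ≠ 0)
  symm := ⟨fun f g h => by
    have : (univ.filter fun e => g.1 e - f.1 e ≠ 0) = univ.filter fun e => f.1 e - g.1 e ≠ 0 := by
      ext e
      simp only [mem_filter, mem_univ, true_and, ne_eq, sub_eq_zero]
      exact not_congr eq_comm
    rw [this]
    exact h⟩
  loopless := ⟨fun f h => G.not_isCycle_empty (by simpa using h)⟩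

end Definitions

section Proof

variable {V E : Type} [Fintype V] [DecidableEq V] [Fintype E] [DecidableEq E]
variable (G : OGraph V E)

/-- the tail of `e` when `e` is oriented by the sign `s e` -/
def tl (s : E → ℤ) (e : E) : V := if s e = 1 then G.src e else G.tgt e

/-- the head of `e` when `e` is oriented by the sign `s e` -/
def hd (s : E → ℤ) (e : E) : V := if s e = 1 then G.tgt e else G.src e

/-- a directed cycle for the signs `s` -/
structure DirCyc (s : E → ℤ) (n : ℕ) (v : ℕ → V) (e : ℕ → E) : Prop where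
  sgn : ∀ x, s x = 1 ∨ s x = -1
  pos : 1 ≤ n
  close : v n = v 0
  inj : ∀ i < n, ∀ j < n, v i = v j → i = j
  tl : ∀ i < n, tl G s (e i) = v i
  hd : ∀ i < n, hd G s (e i) = v (i + 1)

variable {G}

theorem DirCyc.two_le {s : E → ℤ} {n : ℕ} {v : ℕ → V} {e : ℕ → E} (h : DirCyc G s n v e) :
    2 ≤ n := by
  have h1 := h.pos
  rcases Nat.lt_or_ge n 2 with h2 | h2
  · have hn : n = 1 := by omega
    subst hn
    have ht := h.tl 0 (by omega)
    have hh := h.hd 0 (by omega)
    rw [zero_add, h.close] at hh
    have := G.loopless (e 0)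
    unfold Lifting.tl at ht
    unfold Lifting.hd at hh
    split_ifs at ht hh with h3
    · exact absurd (ht.trans hh.symm) this
    · exact absurd (hh.trans ht.symm) this
  · exact h2

theorem DirCyc.inj_edge {s : E → ℤ} {n : ℕ} {v : ℕ → V} {e : ℕ → E} (h : DirCyc G s n v e) :
    ∀ i < n, ∀ j < n, e i = e j → i = j := by
  intro i hi j hj hij
  apply h.inj i hi j hj
  rw [← h.tl i hi, ← h.tl j hj, hij]

theorem DirCyc.isCycle {s : E → ℤ} {n : ℕ} {v : ℕ → V} {e : ℕ → E} (h : DirCyc G s n v e) :
    G.IsCycle ((range n).image e) := by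
  refine ⟨n, v, e, h.two_le, h.close, h.inj, h.inj_edge, ?_, rfl⟩
  intro i hi
  have ht := h.tl i hi
  have hh := h.hd i hi
  unfold Lifting.tl at ht
  unfold Lifting.hd at hh
  unfold OGraph.Joins
  split_ifs at ht hh with h3
  · exact Or.inl ⟨ht, hh⟩
  · exact Or.inr ⟨hh, ht⟩

/-- the value of a flow through the boundary of a vertex -/
theorem isFlow_iff {A : Type} [AddCommGroup A] (f : E → A) : G.IsFlow f ↔
    ∀ w, ∑ x, ((if G.src x = w then f x else 0) - (if G.tgt x = w then f x else 0)) = 0 := by
  unfold OGraph.IsFlow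
  refine forall_congr' fun w => ?_
  rw [sum_sub_distrib, sub_eq_zero, sum_filter, sum_filter]

/-- Summation over a directed cycle. -/
theorem DirCyc.sum_eq {A : Type} [CommRing A] {s : E → ℤ} {n : ℕ} {v : ℕ → V} {e : ℕ → E}
    (h : DirCyc G s n v e) (f : E → A) (hf : ∀ x, x ∉ (range n).image e → f x = 0) (w : V) :
    ∑ x, ((if G.src x = w then f x else 0) - (if G.tgt x = w then f x else 0)) =
      ∑ i ∈ range n, (((s (e i) : ℤ) : A) * f (e i)) *
        ((if v i = w then 1 else 0) - (if v (i + 1) = w then 1 else 0)) := by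
  have h1 : ∑ x, ((if G.src x = w then f x else 0) - (if G.tgt x = w then f x else 0)) =
      ∑ x ∈ (range n).image e,
        ((if G.src x = w then f x else 0) - (if G.tgt x = w then f x else 0)) := by
    symm
    apply sum_subset (subset_univ _)
    intro x _ hx
    simp [hf x hx]
  rw [h1, sum_image (fun i hi j hj hij => h.inj_edge i (mem_range.1 (mem_coe.1 hi)) j
    (mem_range.1 (mem_coe.1 hj)) hij)]
  apply sum_congr rfl
  intro i hi
  have hi' := mem_range.1 hi
  have ht := h.tl i hi'
  have hh := h.hd i hi'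
  unfold Lifting.tl at ht
  unfold Lifting.hd at hh
  rcases h.sgn (e i) with hs | hs
  · rw [if_pos hs] at ht hh
    rw [ht, hh, hs]
    split_ifs <;> simp
  · rw [if_neg (by omega)] at ht hh
    rw [ht, hh, hs]
    split_ifs <;> simp

/-- the unit flow along a directed cycle -/
def unitFlow (s : E → ℤ) (S : Finset E) (x : E) : ℤ := if x ∈ S then s x else 0

theorem DirCyc.isFlow {s : E → ℤ} {n : ℕ} {v : ℕ → V} {e : ℕ → E} (h : DirCyc G s n v e) :
    G.IsFlow (unitFlow s ((range n).image e)) := by
  rw [isFlow_iff]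
  intro w
  rw [h.sum_eq (unitFlow s ((range n).image e)) (fun x hx => by simp [unitFlow, hx]) w]
  simp only [Int.cast_id]
  have h1 : ∀ i ∈ range n, (s (e i) * unitFlow s ((range n).image e) (e i)) *
        ((if v i = w then 1 else 0) - (if v (i + 1) = w then 1 else 0)) =
        (if v i = w then (1 : ℤ) else 0) - (if v (i + 1) = w then 1 else 0) := by
    intro i hi
    have h2 : unitFlow s ((range n).image e) (e i) = s (e i) := by
      unfold unitFlow
      rw [if_pos (mem_image_of_mem e hi)]
    rw [h2]
    rcases h.sgn (e i) with hs | hs <;> simp [hs]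
  rw [sum_congr rfl h1, sum_range_sub' (fun i => if v i = w then (1 : ℤ) else 0) n, h.close]
  simp

/-- every cycle has a direction -/
theorem exists_dirCyc {S : Finset E} (h : G.IsCycle S) :
    ∃ (s : E → ℤ) (n : ℕ) (v : ℕ → V) (e : ℕ → E), DirCyc G s n v e ∧ S = (range n).image e := by
  classical
  obtain ⟨n, v, e, hn, hc, hv, he, hj, hS⟩ := h
  obtain ⟨s, hs⟩ : ∃ s : E → ℤ, ∀ x, ((∃ i < n, e i = x ∧ G.src x = v i) ∧ s x = 1) ∨
      ((¬ ∃ i < n, e i = x ∧ G.src x = v i) ∧ s x = -1) := by
    refine ⟨fun x => if ∃ i < n, e i = x ∧ G.src x = v i then 1 else -1, fun x => ?_⟩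
    by_cases h : ∃ i < n, e i = x ∧ G.src x = v i
    · exact Or.inl ⟨h, if_pos h⟩
    · exact Or.inr ⟨h, if_neg h⟩
  refine ⟨s, n, v, e, ⟨?_, by omega, hc, hv, ?_, ?_⟩, hS⟩
  · intro x
    rcases hs x with h | h
    · exact Or.inl h.2
    · exact Or.inr h.2
  · intro i hi
    unfold Lifting.tl
    rcases hs (e i) with ⟨⟨j, hj1, hj2, hj3⟩, h2⟩ | ⟨h1, h2⟩
    · rw [if_pos h2, hj3, he j hj1 i hi hj2]
    · rw [if_neg (by omega)]
      rcases hj i hi with h3 | h3
      · exact absurd ⟨i, hi, rfl, h3.1⟩ h1
      · exact h3.2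
  · intro i hi
    unfold Lifting.hd
    rcases hs (e i) with ⟨⟨j, hj1, hj2, hj3⟩, h2⟩ | ⟨h1, h2⟩
    · rw [if_pos h2]
      rw [he j hj1 i hi hj2] at hj3
      rcases hj i hi with h3 | h3
      · exact h3.2
      · exact absurd (hj3.trans h3.2.symm) (G.loopless _)
    · rw [if_neg (by omega)]
      rcases hj i hi with h3 | h3
      · exact absurd ⟨i, hi, rfl, h3.1⟩ h1
      · exact h3.1

/-- `S` is the edge set of a cycle and the signs `s` give the unit flow along it. -/
structure UnitCyc (G : OGraph V E) (s : E → ℤ) (S : Finset E) : Prop where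
  sgn : ∀ x, s x = 1 ∨ s x = -1
  isFlow : G.IsFlow (unitFlow s S)
  isCycle : G.IsCycle S

theorem DirCyc.unitCyc {s : E → ℤ} {n : ℕ} {v : ℕ → V} {e : ℕ → E} (h : DirCyc G s n v e) :
    UnitCyc G s ((range n).image e) := ⟨h.sgn, h.isFlow, h.isCycle⟩

theorem UnitCyc.neg {s : E → ℤ} {S : Finset E} (h : UnitCyc G s S) :
    UnitCyc G (fun x => -s x) S := by
  refine ⟨fun x => ?_, fun w => ?_, h.isCycle⟩
  · rcases h.sgn x with h1 | h1
    · exact Or.inr (by rw [h1])
    · exact Or.inl (by rw [h1]; norm_num)
  · have h1 := h.isFlow w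
    have h2 : ∀ x, unitFlow (fun x => -s x) S x = -unitFlow s S x := by
      intro x
      unfold unitFlow
      split_ifs <;> simp
    simp only [h2, sum_neg_distrib, h1]

/-- A directed walk can be shortened to a directed path. -/
theorem exists_path (r : V → V → Prop) {a b : V} (h : Relation.ReflTransGen r a b) :
    ∃ (n : ℕ) (p : ℕ → V), p 0 = a ∧ p n = b ∧ (∀ i < n, r (p i) (p (i + 1))) ∧
      ∀ i ≤ n, ∀ j ≤ n, p i = p j → i = j := by
  classical
  have hex : ∃ n, ∃ p : ℕ → V, p 0 = a ∧ p n = b ∧ (∀ i < n, r (p i) (p (i + 1))) := by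
    induction h with
    | refl => exact ⟨0, fun _ => a, rfl, rfl, fun i hi => absurd hi (by omega)⟩
    | @tail b c _ hbc ih =>
      obtain ⟨n, p, h0, hn, hp⟩ := ih
      refine ⟨n + 1, fun i => if i ≤ n then p i else c, by simp [h0], by simp, ?_⟩
      intro i hi
      rcases Nat.lt_or_ge i n with h1 | h1
      · have h2 := hp i h1
        simp only [show i ≤ n by omega, show i + 1 ≤ n by omega, if_true]
        exact h2
      · have h2 : i = n := by omega
        subst h2
        simp only [le_refl, if_true, show ¬ (i + 1 ≤ i) by omega, if_false]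
        rw [hn]
        exact hbc
  obtain ⟨p, h0, hn, hp⟩ := Nat.find_spec hex
  refine ⟨Nat.find hex, p, h0, hn, hp, ?_⟩
  have key : ∀ i j, i < j → j ≤ Nat.find hex → p i ≠ p j := by
    intro i j hij hj hpij
    have h2 : Nat.find hex - (j - i) < Nat.find hex := by omega
    refine Nat.find_min hex h2 ⟨fun t => if t ≤ i then p t else p (t + (j - i)), by simp [h0],
      ?_, ?_⟩
    · dsimp only
      split_ifs with h3
      · have h4 : Nat.find hex = j := by omega
        have h5 : Nat.find hex - (j - i) = i := by omega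
        rw [h5, hpij, ← h4, hn]
      · rw [Nat.sub_add_cancel (by omega), hn]
    · intro t ht
      dsimp only
      rcases Nat.lt_or_ge t i with h3 | h3
      · rw [if_pos (by omega), if_pos (by omega)]
        exact hp t (by omega)
      · rcases Nat.eq_or_lt_of_le h3 with h4 | h4
        · subst h4
          rw [if_pos le_rfl, if_neg (by omega), hpij]
          have := hp j (by omega)
          rwa [show i + 1 + (j - i) = j + 1 by omega]
        · rw [if_neg (by omega), if_neg (by omega)]
          have := hp (t + (j - i)) (by omega)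
          rwa [show t + 1 + (j - i) = t + (j - i) + 1 by omega]
  intro i hi j hj hij
  rcases Nat.lt_trichotomy i j with h1 | h1 | h1
  · exact absurd hij (key i j h1 hj)
  · exact h1
  · exact absurd hij.symm (key j i h1 hi)

/-- Either there is a directed cycle through `e₀` whose other edges are allowed, or there is a
set of vertices which `e₀` enters and which no allowed edge leaves. -/
theorem cycle_or_cut (s : E → ℤ) (hs : ∀ x, s x = 1 ∨ s x = -1) (A : E → Prop) (e₀ : E) :
    (∃ (n : ℕ) (v : ℕ → V) (e : ℕ → E), DirCyc G s n v e ∧ e 0 = e₀ ∧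
      ∀ i < n, e i = e₀ ∨ A (e i)) ∨
    (∃ X : Finset V, hd G s e₀ ∈ X ∧ tl G s e₀ ∉ X ∧
      ∀ x, A x → tl G s x ∈ X → hd G s x ∈ X) := by
  classical
  let r : V → V → Prop := fun a b => ∃ x, A x ∧ tl G s x = a ∧ hd G s x = b
  by_cases hreach : Relation.ReflTransGen r (hd G s e₀) (tl G s e₀)
  · left
    obtain ⟨n, p, h0, hn, hp, hinj⟩ := exists_path r hreach
    have : Nonempty E := ⟨e₀⟩
    choose! x hx using hp
    refine ⟨n + 1, fun i => if i = 0 then tl G s e₀ else p (i - 1),
      fun i => if i = 0 then e₀ else x (i - 1), ?_, by simp, ?_⟩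
    · refine ⟨hs, by omega, by simp [hn], ?_, ?_, ?_⟩
      · intro i hi j hj hij
        split_ifs at hij with h1 h2 h2
        · omega
        · rw [← hn] at hij
          have := hinj n le_rfl (j - 1) (by omega) hij
          omega
        · rw [← hn] at hij
          have := hinj (i - 1) (by omega) n le_rfl hij
          omega
        · have := hinj (i - 1) (by omega) (j - 1) (by omega) hij
          omega
      · intro i hi
        split_ifs with h1
        · rfl
        · exact (hx (i - 1) (by omega)).2.1
      · intro i hi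
        rcases Nat.eq_zero_or_pos i with h1 | h1
        · subst h1
          simp [h0]
        · rw [if_neg (by omega), if_neg (by omega), (hx (i - 1) (by omega)).2.2]
          congr 1
          omega
    · intro i hi
      dsimp only
      split_ifs with h1
      · exact Or.inl rfl
      · exact Or.inr (hx (i - 1) (by omega)).1
  · right
    refine ⟨univ.filter fun w => Relation.ReflTransGen r (hd G s e₀) w, ?_, ?_, ?_⟩
    · simp only [mem_filter, mem_univ, true_and]
      exact Relation.ReflTransGen.refl
    · simpa using hreach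
    · intro y hy h1
      simp only [mem_filter, mem_univ, true_and] at h1 ⊢
      exact Relation.ReflTransGen.tail h1 ⟨y, hy, rfl, rfl⟩

/-- the net outflow from a set of vertices is zero -/
theorem cut_sum {f : E → ℤ} (hf : G.IsFlow f) (X : Finset V) :
    ∑ x, ((if G.src x ∈ X then f x else 0) - (if G.tgt x ∈ X then f x else 0)) = 0 := by
  rw [isFlow_iff] at hf
  have h1 : ∑ w ∈ X, ∑ x, ((if G.src x = w then f x else 0) - (if G.tgt x = w then f x else 0)) =
      0 := sum_eq_zero fun w _ => hf w
  rw [sum_comm] at h1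
  refine Eq.trans (sum_congr rfl fun x _ => ?_) h1
  rw [sum_sub_distrib, sum_ite_eq, sum_ite_eq]

theorem isFlow_add {A : Type} [AddCommGroup A] {f g : E → A} (hf : G.IsFlow f)
    (hg : G.IsFlow g) : G.IsFlow fun x => f x + g x := by
  intro v
  rw [sum_add_distrib, sum_add_distrib, hf v, hg v]

theorem isFlow_mul {f : E → ℤ} (c : ℤ) (hf : G.IsFlow f) : G.IsFlow fun x => c * f x := by
  intro v
  rw [← mul_sum, ← mul_sum, hf v]

theorem isFlow_cast {f : E → ℤ} (k : ℕ) (hf : G.IsFlow f) :
    G.IsFlow fun x => ((f x : ℤ) : ZMod k) := by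
  intro v
  have := congrArg (fun z : ℤ => (z : ZMod k)) (hf v)
  simpa using this

/-- the sign of an integer-valued function, `-1` at the zeros -/
def sgn (g : E → ℤ) (x : E) : ℤ := if 0 < g x then 1 else -1

theorem sgn_cases (g : E → ℤ) (x : E) : (0 < g x ∧ sgn g x = 1) ∨ (g x ≤ 0 ∧ sgn g x = -1) := by
  unfold sgn
  by_cases h : 0 < g x
  · exact Or.inl ⟨h, if_pos h⟩
  · exact Or.inr ⟨by omega, if_neg h⟩

theorem sgn_or (g : E → ℤ) (x : E) : sgn g x = 1 ∨ sgn g x = -1 := by
  rcases sgn_cases g x with h | h
  · exact Or.inl h.2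
  · exact Or.inr h.2

/-- the vertices of `F(G, k)` -/
abbrev IntV (G : OGraph V E) (k : ℕ) := {f : E → ℤ // G.IsFlow f ∧ ∀ e, f e ≠ 0 ∧ |f e| < k}

/-- Adding a multiple of the unit flow along a cycle is a step when the result is a nowhere-zero
`k`-flow. -/
theorem exists_step {k : ℕ} (g : IntV G k) {s : E → ℤ} {S : Finset E} (h : UnitCyc G s S)
    (c : ℤ) (hc : c ≠ 0) (hg : ∀ x ∈ S, g.1 x + c * s x ≠ 0 ∧ |g.1 x + c * s x| < k) :
    ∃ g₁ : IntV G k, (G.intFlowGraph k).Reachable g g₁ ∧
      ∀ x, g₁.1 x = g.1 x + c * unitFlow s S x := by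
  refine ⟨⟨fun x => g.1 x + c * unitFlow s S x,
    isFlow_add g.2.1 (isFlow_mul c h.isFlow), ?_⟩, ?_, fun x => rfl⟩
  · intro x
    unfold unitFlow
    by_cases hx : x ∈ S
    · simp only [if_pos hx]
      exact hg x hx
    · simp only [if_neg hx, mul_zero, add_zero]
      exact g.2.2 x
  · apply SimpleGraph.Adj.reachable
    show G.IsCycle _
    have h1 : (univ.filter fun x => g.1 x - (g.1 x + c * unitFlow s S x) ≠ 0) = S := by
      ext x
      simp only [mem_filter, mem_univ, true_and]
      have h2 : g.1 x - (g.1 x + c * unitFlow s S x) = -(c * unitFlow s S x) := by ring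
      rw [h2, neg_ne_zero]
      unfold unitFlow
      by_cases hx : x ∈ S
      · simp only [hx, if_true, iff_true]
        rcases h.sgn x with h3 | h3 <;> rw [h3] <;> simpa using hc
      · simp only [if_neg hx, mul_zero, ne_eq, not_true_eq_false, false_iff]
        exact hx
    rw [h1]
    exact h.isCycle

/-- Reversing a directed cycle. -/
theorem exists_reverse {k : ℕ} (hk : 0 < k) (g : IntV G k) {n : ℕ} {v : ℕ → V} {e : ℕ → E}
    (h : DirCyc G (sgn g.1) n v e) (S : Finset E) (hS : S = (range n).image e) :
    ∃ g₁ : IntV G k, (G.intFlowGraph k).Reachable g g₁ ∧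
      (∀ x ∈ S, g₁.1 x = g.1 x - k * sgn g.1 x) ∧ ∀ x, x ∉ S → g₁.1 x = g.1 x := by
  have h0 : ∀ x ∈ S, g.1 x + (-(k : ℤ)) * sgn g.1 x ≠ 0 ∧
      |g.1 x + (-(k : ℤ)) * sgn g.1 x| < k := by
    intro x _
    have h1 := (g.2.2 x).1
    have h2 := (g.2.2 x).2
    rw [abs_lt] at h2
    rcases sgn_cases g.1 x with h3 | h3
    · rw [h3.2, abs_lt]
      refine ⟨by omega, by omega, by omega⟩
    · rw [h3.2, abs_lt]
      refine ⟨by omega, by omega, by omega⟩
  obtain ⟨g₁, h1, h2⟩ := exists_step g (hS ▸ h.unitCyc : UnitCyc G (sgn g.1) S) (-(k : ℤ)) (by omega) h0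
  refine ⟨g₁, h1, ?_, ?_⟩
  · intro x hx
    rw [h2 x]
    unfold unitFlow
    rw [if_pos hx]
    ring
  · intro x hx
    rw [h2 x]
    unfold unitFlow
    rw [if_neg hx]
    ring

/-- Two `k`-flows with the same residues modulo `k` are connected in `F(G, k)`. -/
theorem reach_of_same_residue {k : ℕ} (hk : 0 < k) (m : ℕ) : ∀ g g' : IntV G k,
    (∀ x, (k : ℤ) ∣ g.1 x - g'.1 x) → (univ.filter fun x => g.1 x ≠ g'.1 x).card = m →
    (G.intFlowGraph k).Reachable g g' := by
  induction m using Nat.strong_induction_on with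
  | _ m ih =>
  intro g g' hres hm
  by_cases hne : ∀ x, g.1 x = g'.1 x
  · have : g = g' := Subtype.ext (funext hne)
    rw [this]
  · push Not at hne
    obtain ⟨e₀, he₀⟩ := hne
    have key : ∀ x, g.1 x ≠ g'.1 x → g'.1 x = g.1 x - k * sgn g.1 x := by
      intro x hx
      obtain ⟨q, hq⟩ := hres x
      have h1 := (g.2.2 x).2
      have h2 := (g'.2.2 x).2
      have h3 := (g'.2.2 x).1
      have h4 := (g.2.2 x).1
      rw [abs_lt] at h1 h2
      have h5 : q < 2 := by
        by_contra hcon
        have : (k : ℤ) * 2 ≤ k * q := mul_le_mul_of_nonneg_left (by omega) (by omega)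
        omega
      have h6 : -2 < q := by
        by_contra hcon
        have : (k : ℤ) * q ≤ k * (-2) := mul_le_mul_of_nonneg_left (by omega) (by omega)
        omega
      have h7 : q ≠ 0 := by
        rintro rfl
        omega
      have h8 : q = 1 ∨ q = -1 := by omega
      rcases sgn_cases g.1 x with h9 | h9 <;> rcases h8 with h8 | h8 <;> rw [h9.2] <;>
        rw [h8] at hq <;> omega
    rcases cycle_or_cut (G := G) (sgn g.1) (sgn_or g.1) (fun x => g.1 x ≠ g'.1 x) e₀ with
      ⟨n, v, e, hcyc, he0, hA⟩ | ⟨X, hX1, hX2, hX3⟩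
    · obtain ⟨g₁, hr, hin, hout⟩ := exists_reverse hk g hcyc _ rfl
      have hA' : ∀ x ∈ (range n).image e, g.1 x ≠ g'.1 x := by
        intro x hx
        obtain ⟨i, hi, rfl⟩ := mem_image.1 hx
        rcases hA i (mem_range.1 hi) with h1 | h1
        · rw [h1]
          exact he₀
        · exact h1
      have heq : ∀ x ∈ (range n).image e, g₁.1 x = g'.1 x := by
        intro x hx
        rw [hin x hx, key x (hA' x hx)]
      refine hr.trans (ih _ ?_ g₁ g' ?_ rfl)
      · rw [← hm]
        apply card_lt_card
        rw [ssubset_iff_of_subset]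
        · refine ⟨e₀, by simpa using he₀, ?_⟩
          have : g₁.1 e₀ = g'.1 e₀ :=
            heq e₀ (he0 ▸ mem_image_of_mem e (mem_range.2 (by have := hcyc.pos; omega)))
          simpa using this
        · intro x hx
          simp only [mem_filter, mem_univ, true_and] at hx ⊢
          by_cases hxS : x ∈ (range n).image e
          · exact absurd (heq x hxS) hx
          · rw [← hout x hxS]
            exact hx
      · intro x
        by_cases hxS : x ∈ (range n).image e
        · rw [heq x hxS, sub_self]
          exact dvd_zero _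
        · rw [hout x hxS]
          exact hres x
    · exfalso
      have h1 := cut_sum g.2.1 X
      have h2 := cut_sum g'.2.1 X
      have h3 : ∑ x, (((if G.src x ∈ X then g.1 x else 0) - (if G.tgt x ∈ X then g.1 x else 0)) -
          ((if G.src x ∈ X then g'.1 x else 0) - (if G.tgt x ∈ X then g'.1 x else 0))) = 0 := by
        rw [sum_sub_distrib, h1, h2, sub_zero]
      have h4 : ∑ x, (((if G.src x ∈ X then g.1 x else 0) - (if G.tgt x ∈ X then g.1 x else 0)) -
          ((if G.src x ∈ X then g'.1 x else 0) - (if G.tgt x ∈ X then g'.1 x else 0))) < 0 := by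
        have h5 : ∀ x ∈ univ, (((if G.src x ∈ X then g.1 x else 0) -
            (if G.tgt x ∈ X then g.1 x else 0)) -
            ((if G.src x ∈ X then g'.1 x else 0) - (if G.tgt x ∈ X then g'.1 x else 0))) ≤ 0 := by
          intro x _
          by_cases hx : g.1 x = g'.1 x
          · rw [hx]
            simp
          · have h6 := key x hx
            have h7 := hX3 x hx
            unfold Lifting.tl Lifting.hd at h7
            rcases sgn_cases g.1 x with h8 | h8
            · rw [h8.2] at h6 h7
              simp only [if_true] at h7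
              by_cases h9 : G.src x ∈ X
              · have h10 := h7 h9
                simp only [if_pos h9, if_pos h10]
                omega
              · simp only [if_neg h9]
                split_ifs <;> omega
            · rw [h8.2] at h6 h7
              simp only [show ¬ ((-1 : ℤ) = 1) by norm_num, if_false] at h7
              by_cases h9 : G.tgt x ∈ X
              · have h10 := h7 h9
                simp only [if_pos h9, if_pos h10]
                omega
              · simp only [if_neg h9]
                split_ifs <;> omega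
        refine lt_of_le_of_ne (sum_nonpos h5) ?_
        intro h6
        rw [sum_eq_zero_iff_of_nonpos h5] at h6
        have h7 := h6 e₀ (mem_univ _)
        have h8 := key e₀ he₀
        unfold Lifting.hd at hX1
        unfold Lifting.tl at hX2
        rcases sgn_cases g.1 e₀ with h9 | h9
        · rw [h9.2] at h8 hX1 hX2
          simp only [if_true] at hX1 hX2
          simp only [if_pos hX1, if_neg hX2] at h7
          omega
        · rw [h9.2] at h8 hX1 hX2
          simp only [show ¬ ((-1 : ℤ) = 1) by norm_num, if_false] at hX1 hX2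
          simp only [if_pos hX1, if_neg hX2] at h7
          omega
      omega

/-- the contribution of an edge to the net outflow from `X` -/
def bd (G : OGraph V E) (X : Finset V) (f : E → ℤ) (x : E) : ℤ :=
  (if G.src x ∈ X then f x else 0) - (if G.tgt x ∈ X then f x else 0)

/-- The number of edges of a cycle leaving a set of vertices along the cycle is at most half of
the length of the cycle. -/
theorem card_out_le {s : E → ℤ} {S : Finset E} (h : UnitCyc G s S) (X : Finset V) :
    (univ.filter fun x => bd G X (unitFlow s S) x = 1).card ≤ S.card / 2 := by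
  have h1 := cut_sum h.isFlow X
  have hb : ∀ x, bd G X (unitFlow s S) x = (if bd G X (unitFlow s S) x = 1 then 1 else 0) -
      (if bd G X (unitFlow s S) x = -1 then 1 else 0) := by
    intro x
    unfold bd unitFlow
    rcases h.sgn x with hs | hs <;> rw [hs] <;> by_cases h2 : G.src x ∈ X <;>
      by_cases h3 : G.tgt x ∈ X <;> by_cases h4 : x ∈ S <;> simp [h2, h3, h4]
  have h2 : ∑ x, bd G X (unitFlow s S) x = 0 := h1
  rw [sum_congr rfl fun x _ => hb x, sum_sub_distrib, sum_boole, sum_boole, sub_eq_zero] at h2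
  have h3 : (univ.filter fun x => bd G X (unitFlow s S) x = 1).card =
      (univ.filter fun x => bd G X (unitFlow s S) x = -1).card := by exact_mod_cast h2
  have h4 : (univ.filter fun x => bd G X (unitFlow s S) x = 1).card +
      (univ.filter fun x => bd G X (unitFlow s S) x = -1).card ≤ S.card := by
    rw [← card_union_of_disjoint]
    · apply card_le_card
      intro x hx
      by_contra hxS
      simp only [mem_union, mem_filter, mem_univ, true_and] at hx
      unfold bd unitFlow at hx
      simp [hxS] at hx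
    · rw [disjoint_filter]
      intro x _ h5 h6
      omega
  omega

/-- Repairing an edge of the cycle which has too large a value along the cycle. -/
theorem exists_repair {k : ℕ} (hk : 0 < k) {s : E → ℤ} {S : Finset E} (h : UnitCyc G s S)
    (c : ℤ) (hc1 : 1 ≤ c) (hck : c ≤ k) (hcard : (c - 2) * ((S.card / 2 : ℕ) : ℤ) < k) (g : IntV G k)
    (hmod : ∀ x ∈ S, ¬ (k : ℤ) ∣ s x * g.1 x + c) (e₀ : E) (he₀ : e₀ ∈ S)
    (hbad : k - c < s e₀ * g.1 e₀) :
    ∃ g₁ : IntV G k, (G.intFlowGraph k).Reachable g g₁ ∧ (∀ x, (k : ℤ) ∣ g.1 x - g₁.1 x) ∧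
      (S.filter fun x => k - c < s x * g₁.1 x) ⊂ (S.filter fun x => k - c < s x * g.1 x) := by
  rcases cycle_or_cut (G := G) (sgn g.1) (sgn_or g.1)
    (fun x => ¬ (x ∈ S ∧ -c < s x * g.1 x ∧ s x * g.1 x < 0)) e₀ with
    ⟨m, w, d, hcyc, hd0, hA⟩ | ⟨X, hX1, hX2, hX3⟩
  · obtain ⟨g₁, hr, hin, hout⟩ := exists_reverse hk g hcyc _ rfl
    refine ⟨g₁, hr, ?_, ?_⟩
    · intro x
      by_cases hx : x ∈ (range m).image d
      · rw [hin x hx]
        exact ⟨sgn g.1 x, by ring⟩
      · rw [hout x hx, sub_self]
        exact dvd_zero _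
    · -- the edges of the directed cycle are not bad after the reversal
      have hgood : ∀ x ∈ (range m).image d, x ∈ S → ¬ (k - c < s x * g₁.1 x) := by
        intro x hx hxS hlt
        rw [hin x hx] at hlt
        have h2 := (g.2.2 x).2
        have h4 := (g.2.2 x).1
        have h5 := hmod x hxS
        rw [abs_lt] at h2
        obtain ⟨i, hi, rfl⟩ := mem_image.1 hx
        rcases hA i (mem_range.1 hi) with h1 | h1
        · rw [h1] at hlt hxS h2 h4 h5
          rcases h.sgn e₀ with hs | hs <;> rw [hs] at hlt hbad <;>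
            rcases sgn_cases g.1 e₀ with h3 | h3 <;> rw [h3.2] at hlt <;> omega
        · have h6 : s (d i) * g.1 (d i) ≠ -c := by
            intro h6
            apply h5
            rw [h6]
            simp
          rcases h.sgn (d i) with hs | hs <;> rw [hs] at hlt h1 h6 <;>
            rcases sgn_cases g.1 (d i) with h3 | h3 <;> rw [h3.2] at hlt <;>
            simp only [hxS, true_and] at h1 <;> omega
      rw [ssubset_iff_of_subset]
      · refine ⟨e₀, by simpa using ⟨he₀, hbad⟩, ?_⟩
        have h1 : e₀ ∈ (range m).image d :=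
          hd0 ▸ mem_image_of_mem d (mem_range.2 (by have := hcyc.pos; omega))
        intro h2
        exact hgood e₀ h1 he₀ (mem_filter.1 h2).2
      · intro x hx
        rw [mem_filter] at hx ⊢
        refine ⟨hx.1, ?_⟩
        by_cases h1 : x ∈ (range m).image d
        · exact absurd hx.2 (hgood x h1 hx.1)
        · rw [← hout x h1]
          exact hx.2
  · exfalso
    have h1 : ∑ x, bd G X g.1 x = 0 := cut_sum g.2.1 X
    have h2 : ∑ x, bd G X (unitFlow s S) x = 0 := cut_sum h.isFlow X
    have key : ∀ x ∈ univ, bd G X g.1 x + (c - 1) * bd G X (unitFlow s S) x ≤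
        (c - 2) * (if bd G X (unitFlow s S) x = 1 then 1 else 0) -
          (if x = e₀ then (k : ℤ) else 0) := by
      intro x _
      have h3 := hX3 x
      have h4 := (g.2.2 x).1
      by_cases hx0 : x = e₀
      · subst hx0
        unfold bd unitFlow
        unfold Lifting.hd at hX1
        unfold Lifting.tl at hX2
        rcases h.sgn x with hs | hs <;> rw [hs] at hbad ⊢ <;>
          rcases sgn_cases g.1 x with h5 | h5 <;> rw [h5.2] at hX1 hX2 <;>
          simp only [if_true, show ¬ ((-1 : ℤ) = 1) by norm_num, if_false] at hX1 hX2 <;>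
          simp only [hX1, hX2, he₀, if_true, if_false] <;> norm_num <;> omega
      · unfold bd unitFlow
        unfold Lifting.hd Lifting.tl at h3
        rcases h.sgn x with hs | hs <;> rw [hs] at h3 ⊢ <;>
          rcases sgn_cases g.1 x with h5 | h5 <;> rw [h5.2] at h3 <;>
          simp only [if_true, show ¬ ((-1 : ℤ) = 1) by norm_num, if_false] at h3 <;>
          by_cases h6 : G.src x ∈ X <;> by_cases h7 : G.tgt x ∈ X <;> by_cases h8 : x ∈ S <;>
          simp only [h6, h7, h8, hx0, if_true, if_false, true_and, false_and, not_false_eq_true,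
            not_true_eq_false, true_imp_iff, imp_false, not_not, imp_self] at h3 ⊢ <;>
          norm_num <;> omega
    have h3 := sum_le_sum key
    rw [sum_add_distrib, ← mul_sum, h1, h2, sum_sub_distrib, ← mul_sum, sum_boole,
      sum_ite_eq' univ e₀ fun _ => (k : ℤ)] at h3
    simp only [mem_univ, if_true] at h3
    have h4 := card_out_le h X
    have h5 : (((univ.filter fun x => bd G X (unitFlow s S) x = 1).card : ℕ) : ℤ) ≤
        ((S.card / 2 : ℕ) : ℤ) := by exact_mod_cast h4
    have h6 : (0 : ℤ) ≤ (((univ.filter fun x => bd G X (unitFlow s S) x = 1).card : ℕ) : ℤ) :=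
      Int.natCast_nonneg _
    rcases le_or_gt c 2 with h7 | h7
    · have : (c - 2) * (((univ.filter fun x => bd G X (unitFlow s S) x = 1).card : ℕ) : ℤ) ≤ 0 :=
        mul_nonpos_of_nonpos_of_nonneg (by omega) h6
      omega
    · have : (c - 2) * (((univ.filter fun x => bd G X (unitFlow s S) x = 1).card : ℕ) : ℤ) ≤
          (c - 2) * ((S.card / 2 : ℕ) : ℤ) := mul_le_mul_of_nonneg_left h5 (by omega)
      omega

/-- All edges of the cycle can be repaired. -/
theorem exists_good_lift {k : ℕ} (hk : 0 < k) {s : E → ℤ} {S : Finset E} (h : UnitCyc G s S)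
    (c : ℤ) (hc1 : 1 ≤ c) (hck : c ≤ k) (hcard : (c - 2) * ((S.card / 2 : ℕ) : ℤ) < k) (m : ℕ) :
    ∀ g : IntV G k, (∀ x ∈ S, ¬ (k : ℤ) ∣ s x * g.1 x + c) →
    (S.filter fun x => k - c < s x * g.1 x).card = m →
    ∃ g₁ : IntV G k, (G.intFlowGraph k).Reachable g g₁ ∧ (∀ x, (k : ℤ) ∣ g.1 x - g₁.1 x) ∧
      ∀ x ∈ S, s x * g₁.1 x ≤ k - c := by
  induction m using Nat.strong_induction_on with
  | _ m ih =>
  intro g hmod hm
  by_cases hbad : ∃ e₀ ∈ S, k - c < s e₀ * g.1 e₀
  · obtain ⟨e₀, he₀, hb⟩ := hbad
    obtain ⟨g₁, hr, hd, hss⟩ := exists_repair hk h c hc1 hck hcard g hmod e₀ he₀ hb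
    obtain ⟨g₂, hr2, hd2, hg2⟩ := ih _ (hm ▸ card_lt_card hss) g₁ (by
      intro x hx h1
      apply hmod x hx
      have h2 : s x * g.1 x + c = (s x * g₁.1 x + c) + s x * (g.1 x - g₁.1 x) := by ring
      rw [h2]
      exact dvd_add h1 (Dvd.dvd.mul_left (hd x) _)) rfl
    refine ⟨g₂, hr.trans hr2, ?_, hg2⟩
    intro x
    have h2 : g.1 x - g₂.1 x = (g.1 x - g₁.1 x) + (g₁.1 x - g₂.1 x) := by ring
    rw [h2]
    exact dvd_add (hd x) (hd2 x)
  · push Not at hbad
    exact ⟨g, SimpleGraph.Reachable.refl _, fun x => by simp, hbad⟩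

/-- Lifting one step. -/
theorem lift_step {k : ℕ} (hk : 0 < k) {s : E → ℤ} {S : Finset E} (h : UnitCyc G s S)
    (c : ℤ) (hc1 : 1 ≤ c) (hck : c ≤ k) (hcard : (c - 2) * ((S.card / 2 : ℕ) : ℤ) < k)
    (g : IntV G k) (f' : E → ZMod k) (hf' : ∀ x, f' x ≠ 0)
    (hff' : ∀ x, f' x = (g.1 x : ZMod k) + (c : ZMod k) * (unitFlow s S x : ZMod k)) :
    ∃ g' : IntV G k, (G.intFlowGraph k).Reachable g g' ∧ ∀ x, (g'.1 x : ZMod k) = f' x := by
  have hmod : ∀ x ∈ S, ¬ (k : ℤ) ∣ s x * g.1 x + c := by
    intro x hx hd
    apply hf' x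
    rw [hff' x]
    rw [← ZMod.intCast_zmod_eq_zero_iff_dvd] at hd
    unfold unitFlow
    rw [if_pos hx]
    push_cast at hd
    rcases h.sgn x with hs | hs
    · rw [hs] at hd ⊢
      push_cast at hd ⊢
      rw [one_mul] at hd
      rw [mul_one]
      exact hd
    · rw [hs] at hd ⊢
      push_cast at hd ⊢
      linear_combination -hd
  obtain ⟨g₁, hr, hd, hg⟩ := exists_good_lift hk h c hc1 hck hcard _ g hmod rfl
  have hg₁ : ∀ x ∈ S, g₁.1 x + c * s x ≠ 0 ∧ |g₁.1 x + c * s x| < k := by
    intro x hx
    have h1 := hg x hx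
    have h2 := (g₁.2.2 x).2
    have h3 : ¬ (k : ℤ) ∣ s x * g₁.1 x + c := by
      intro h4
      apply hmod x hx
      have h5 : s x * g.1 x + c = (s x * g₁.1 x + c) + s x * (g.1 x - g₁.1 x) := by ring
      rw [h5]
      exact dvd_add h4 (Dvd.dvd.mul_left (hd x) _)
    have h6 : s x * g₁.1 x + c ≠ 0 := by
      intro h7
      apply h3
      rw [h7]
      exact dvd_zero _
    have h8 : s x * g₁.1 x + c ≠ k := by
      intro h7
      apply h3
      rw [h7]
    rw [abs_lt] at h2 ⊢
    rcases h.sgn x with hs | hs <;> rw [hs] at h1 h6 h8 ⊢ <;> refine ⟨?_, ?_, ?_⟩ <;> omega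
  obtain ⟨g₂, hr2, hg₂⟩ := exists_step g₁ h c (by omega) hg₁
  refine ⟨g₂, hr.trans hr2, ?_⟩
  intro x
  rw [hg₂ x, hff' x]
  have h1 := hd x
  rw [← ZMod.intCast_zmod_eq_zero_iff_dvd] at h1
  push_cast at h1 ⊢
  linear_combination -h1

/-- The difference of two adjacent `ℤ_k`-flows is a multiple of the unit flow. -/
theorem step_form {k : ℕ} {s : E → ℤ} {n : ℕ} {v : ℕ → V} {e : ℕ → E} (h : DirCyc G s n v e)
    (f : E → ZMod k) (hf : G.IsFlow f) (hS : ∀ x, x ∉ (range n).image e → f x = 0) :
    ∃ a : ZMod k, ∀ x, f x = a * (unitFlow s ((range n).image e) x : ZMod k) := by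
  have h1 : ∀ i < n, ((s (e i) : ℤ) : ZMod k) * f (e i) = ((s (e 0) : ℤ) : ZMod k) * f (e 0) := by
    intro i
    induction i with
    | zero => intro _; rfl
    | succ j ih =>
      intro hj
      rw [← ih (by omega)]
      have h2 := (isFlow_iff f).1 hf (v (j + 1))
      rw [h.sum_eq f hS (v (j + 1))] at h2
      have h3 : ∑ i ∈ range n, (((s (e i) : ℤ) : ZMod k) * f (e i)) *
          (if v i = v (j + 1) then 1 else 0) =
          ((s (e (j + 1)) : ℤ) : ZMod k) * f (e (j + 1)) := by
        rw [sum_eq_single (j + 1)]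
        · simp
        · intro b hb hne
          have : v b ≠ v (j + 1) := fun h4 => hne (h.inj b (mem_range.1 hb) (j + 1) hj h4)
          simp [this]
        · intro h4
          exact absurd (mem_range.2 hj) h4
      have h5 : ∑ i ∈ range n, (((s (e i) : ℤ) : ZMod k) * f (e i)) *
          (if v (i + 1) = v (j + 1) then 1 else 0) =
          ((s (e j) : ℤ) : ZMod k) * f (e j) := by
        rw [sum_eq_single j]
        · simp
        · intro b hb hne
          have hb' := mem_range.1 hb
          have : v (b + 1) ≠ v (j + 1) := by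
            intro h4
            rcases Nat.lt_or_ge (b + 1) n with h6 | h6
            · have := h.inj (b + 1) h6 (j + 1) hj h4
              omega
            · have h7 : b + 1 = n := by omega
              rw [h7, h.close] at h4
              have := h.inj 0 (by omega) (j + 1) hj h4
              omega
          simp [this]
        · intro h4
          exact absurd (mem_range.2 (by omega)) h4
      simp only [mul_sub, sum_sub_distrib] at h2
      rw [h3, h5, sub_eq_zero] at h2
      exact h2
  refine ⟨((s (e 0) : ℤ) : ZMod k) * f (e 0), fun x => ?_⟩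
  unfold unitFlow
  by_cases hx : x ∈ (range n).image e
  · rw [if_pos hx]
    obtain ⟨i, hi, rfl⟩ := mem_image.1 hx
    rw [← h1 i (mem_range.1 hi)]
    rcases h.sgn (e i) with hs | hs <;> rw [hs] <;> push_cast <;> ring
  · rw [if_neg hx, hS x hx]
    simp

end Proof

/-- **Integer versus cyclic-group flow reconfiguration.** Let `G` be a finite loopless multigraph
and `k ≥ 2`, where `k ≤ 5`, or every cycle `S` of `G` satisfies `(⌊k/2⌋ - 2) ⌊|S|/2⌋ < k`. If the
reconfiguration graph `F(G, ℤ_k)` of the nowhere-zero `ℤ_k`-flows is connected, then so is the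
reconfiguration graph `F(G, k)` of the nowhere-zero `k`-flows. (A graph without vertices counts as
connected: this is `SimpleGraph.Preconnected`.) -/
theorem result {V E : Type} [Fintype V] [DecidableEq V] [Fintype E] [DecidableEq E]
    (G : OGraph V E) (k : ℕ) (hk : 2 ≤ k)
    (hkG : k ≤ 5 ∨ ∀ S : Finset E, G.IsCycle S → (k / 2 - 2) * (S.card / 2) < k)
    (hconn : (G.flowGraph (ZMod k)).Preconnected) : (G.intFlowGraph k).Preconnected := by
  have hk0 : 0 < k := by omega
  have : NeZero k := ⟨by omega⟩
  -- lifting a path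
  have hlift : ∀ f f' : {f : E → ZMod k // G.IsFlow f ∧ ∀ e, f e ≠ 0},
      (G.flowGraph (ZMod k)).Reachable f f' → ∀ g : IntV G k,
      (∀ x, (g.1 x : ZMod k) = f.1 x) → ∃ g' : IntV G k, (G.intFlowGraph k).Reachable g g' ∧
        ∀ x, (g'.1 x : ZMod k) = f'.1 x := by
    intro f f' hff'
    rw [SimpleGraph.reachable_iff_reflTransGen] at hff'
    induction hff' with
    | refl => exact fun g hg => ⟨g, SimpleGraph.Reachable.refl _, hg⟩
    | @tail f₁ f₂ _ hadj ih =>
      intro g hg
      obtain ⟨g₁, hr, hg₁⟩ := ih g hg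
      have hcyc : G.IsCycle (univ.filter fun e => f₁.1 e - f₂.1 e ≠ 0) := hadj
      obtain ⟨s, n, v, e, hdc, hSe⟩ := exists_dirCyc hcyc
      have hflow : G.IsFlow fun x => f₂.1 x - f₁.1 x := by
        intro w
        rw [sum_sub_distrib, sum_sub_distrib, f₁.2.1 w, f₂.2.1 w]
      obtain ⟨a, ha⟩ := step_form hdc (fun x => f₂.1 x - f₁.1 x) hflow (by
        intro x hx
        rw [← hSe] at hx
        simp only [mem_filter, mem_univ, true_and, ne_eq, not_not] at hx
        rw [← neg_sub, hx, neg_zero])
      have hval : ((a.val : ℤ) : ZMod k) = a := by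
        push_cast
        exact ZMod.natCast_zmod_val a
      have hlt : a.val < k := ZMod.val_lt a
      have ha0 : a ≠ 0 := by
        rintro rfl
        have h1 : ∀ x, f₁.1 x - f₂.1 x = 0 := by
          intro x
          have := ha x
          rw [zero_mul, sub_eq_zero] at this
          rw [this, sub_self]
        exact G.not_isCycle_empty (by simpa [h1] using hcyc)
      have hapos : 0 < a.val := by
        rcases Nat.eq_zero_or_pos a.val with h1 | h1
        · exact absurd ((ZMod.val_eq_zero a).1 h1) ha0
        · exact h1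
      have hbound : ∀ c : ℕ, 1 ≤ c → c ≤ k / 2 →
          ((c : ℤ) - 2) * ((((range n).image e).card / 2 : ℕ) : ℤ) < k := by
        intro c hc1 hc2
        rcases Nat.lt_or_ge 2 c with h3 | h3
        · rcases hkG with h1 | h1
          · omega
          · have h2 := h1 _ hdc.isCycle
            have h4 : (c - 2) * (((range n).image e).card / 2) ≤
                (k / 2 - 2) * (((range n).image e).card / 2) :=
              Nat.mul_le_mul_right _ (by omega)
            have h5 : (((c - 2 : ℕ) : ℤ)) = (c : ℤ) - 2 := by omega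
            rw [← h5]
            exact_mod_cast lt_of_le_of_lt h4 h2
        · have h5 : ((c : ℤ) - 2) * ((((range n).image e).card / 2 : ℕ) : ℤ) ≤ 0 :=
            mul_nonpos_of_nonpos_of_nonneg (by omega) (Int.natCast_nonneg _)
          omega
      rcases Nat.lt_or_ge (k / 2) a.val with h1 | h1
      · -- traverse the cycle in the other direction
        obtain ⟨g₂, hr2, hg₂⟩ := lift_step hk0 hdc.unitCyc.neg ((k - a.val : ℕ) : ℤ) (by omega)
          (by omega) (hbound (k - a.val) (by omega) (by omega)) g₁ f₂.1 f₂.2.2 (by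
            intro x
            rw [hg₁ x, ← sub_eq_iff_eq_add', ha x]
            have h2 : unitFlow (fun x => -s x) ((range n).image e) x =
                -unitFlow s ((range n).image e) x := by
              unfold unitFlow
              split_ifs <;> simp
            rw [h2, Nat.cast_sub hlt.le]
            push_cast
            rw [ZMod.natCast_self, ZMod.natCast_zmod_val]
            ring)
        exact ⟨g₂, hr.trans hr2, hg₂⟩
      · obtain ⟨g₂, hr2, hg₂⟩ := lift_step hk0 hdc.unitCyc (a.val : ℤ) (by omega) (by omega)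
          (hbound a.val hapos h1) g₁ f₂.1 f₂.2.2 (by
            intro x
            rw [hg₁ x, hval, ← sub_eq_iff_eq_add', ha x])
        exact ⟨g₂, hr.trans hr2, hg₂⟩
  intro g g'
  have hcast : ∀ g : IntV G k, G.IsFlow (fun x => ((g.1 x : ℤ) : ZMod k)) ∧
      ∀ x, ((g.1 x : ℤ) : ZMod k) ≠ 0 := by
    intro g
    refine ⟨isFlow_cast k g.2.1, fun x hx => ?_⟩
    rw [ZMod.intCast_zmod_eq_zero_iff_dvd] at hx
    have h1 := Int.eq_zero_of_abs_lt_dvd hx (g.2.2 x).2
    exact (g.2.2 x).1 h1
  obtain ⟨g₁, hr, hg₁⟩ := hlift ⟨_, hcast g⟩ ⟨_, hcast g'⟩ (hconn _ _) g (fun x => rfl)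
  refine hr.trans (reach_of_same_residue hk0 _ g₁ g' ?_ rfl)
  intro x
  rw [← ZMod.intCast_zmod_eq_zero_iff_dvd]
  push_cast
  rw [hg₁ x, sub_self]

end Pool.Agent.Results.MP_3da9df_co.Lifting
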